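import Mathlib

namespace Pool.Agent.Results.MP_1e20d6_nt.Fails

open Polynomial

lemma pow_half (p : ℕ) [Fact p.Prime] (hp : 5 ≤ p) (x : ZMod p) :
    x ^ ((p - 1) / 2) = ((quadraticChar (ZMod p) x : ℤ) : ZMod p) := by
  have hodd : p % 2 = 1 := by
    rcases (Fact.out : p.Prime).eq_two_or_odd with h | h <;> omega
  have hc : ringChar (ZMod p) ≠ 2 := by rw [ZMod.ringChar_zmod_n]; omega
  rw [quadraticChar_eq_pow_of_char_ne_two' hc, ZMod.card]
  congr 1
  omega

lemma chi_bd (p : ℕ) [Fact p.Prime] (x : ZMod p) :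
    -1 ≤ quadraticChar (ZMod p) x ∧ quadraticChar (ZMod p) x ≤ 1 := by
  rcases quadraticChar_isQuadratic (ZMod p) x with h | h | h <;> rw [h] <;> constructor <;> norm_num

theorem result (k : ℕ) (hk : 2 ≤ k) (p : ℕ) [Fact p.Prime] (hp : k + 3 ≤ p) :
    ∃ P : (ZMod p)[X], P.natDegree < (p - 1) / 2 ∧
      (∑ x : ZMod p, (P.eval x).val) = k * p ∧
      ¬ ∃ a b c d : ZMod p, a ≠ 0 ∧
        ∀ x, P.eval x = c * ((a * x + b) ^ ((p - 1) / 2) + 1) + d := by
  have hp5 : 5 ≤ p := by omega
  have hodd : p % 2 = 1 := by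
    rcases (Fact.out : p.Prime).eq_two_or_odd with h | h <;> omega
  have hc : ringChar (ZMod p) ≠ 2 := by rw [ZMod.ringChar_zmod_n]; omega
  obtain ⟨n, hn⟩ : ∃ n, (p - 1) / 2 = n + 2 := ⟨(p - 1) / 2 - 2, by omega⟩
  set P : (ZMod p)[X] := X ^ (n + 2) - (X + 1) ^ (n + 2) + C (k : ZMod p) with hP
  have hcoeff : ∀ j, 1 ≤ j → P.coeff j =
      (if j = n + 2 then 1 else 0) - (((n + 2).choose j : ℕ) : ZMod p) := by
    intro j hj
    rw [hP, coeff_add, coeff_sub, coeff_X_pow, coeff_X_add_one_pow, coeff_C,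
      if_neg (show ¬ j = 0 by omega), add_zero]
  have hdeg : P.natDegree ≤ n + 1 := by
    rw [natDegree_le_iff_coeff_eq_zero]
    intro j hj
    rw [hcoeff j (by omega)]
    split_ifs with h
    · rw [h]; simp
    · rw [Nat.choose_eq_zero_of_lt (by omega)]; simp
  have hev : ∀ x : ZMod p, P.eval x =
      (((quadraticChar (ZMod p) x - quadraticChar (ZMod p) (x + 1) + k : ℤ)) : ZMod p) := by
    intro x
    rw [hP]
    simp only [eval_add, eval_sub, eval_pow, eval_X, eval_one, eval_C]
    rw [← hn, pow_half p hp5, pow_half p hp5]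
    push_cast
    ring
  refine ⟨P, by omega, ?_, ?_⟩
  · have h1 : ∀ x : ZMod p, (((P.eval x).val : ℕ) : ℤ) =
        quadraticChar (ZMod p) x - quadraticChar (ZMod p) (x + 1) + k := by
      intro x
      rw [hev, ZMod.val_intCast]
      have := chi_bd p x
      have := chi_bd p (x + 1)
      apply Int.emod_eq_of_lt <;> omega
    have h2 : ∑ x : ZMod p, quadraticChar (ZMod p) (x + 1) = 0 := by
      rw [← quadraticChar_sum_zero hc]
      exact Fintype.sum_equiv (Equiv.addRight 1) _ _ (fun x => rfl)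
    zify
    rw [Finset.sum_congr rfl (fun x _ => h1 x), Finset.sum_add_distrib, Finset.sum_sub_distrib,
      h2, quadraticChar_sum_zero hc]
    simp [ZMod.card, mul_comm]
  · rintro ⟨a, b, c, d, ha, h⟩
    rw [hn] at h
    set Q : (ZMod p)[X] := C c * ((C a * X + C b) ^ (n + 2) + 1) + C d with hQ
    have hQd : Q.natDegree ≤ n + 2 := by
      rw [hQ]; compute_degree!
    have hPQ : P = Q := by
      apply Polynomial.eq_of_natDegree_lt_card_of_eval_eq P Q (f := id) Function.injective_id
      · intro x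
        rw [id, h x, hQ]; simp
      · rw [ZMod.card]
        exact max_lt (by omega) (by omega)
    have hl : (C a * X + C b).natDegree ≤ 1 := natDegree_linear_le
    have hQn : Q.coeff (n + 2) = c * a ^ (n + 2) := by
      have := coeff_pow_of_natDegree_le (m := n + 2) hl
      rw [mul_one] at this
      rw [hQ, coeff_add, coeff_C_mul, coeff_add, this, coeff_C, coeff_one]
      simp
    rw [← hPQ, hcoeff _ (by omega)] at hQn
    have hc0 : c = 0 := by
      have : c * a ^ (n + 2) = 0 := by rw [← hQn]; simp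
      rcases mul_eq_zero.1 this with h | h
      · exact h
      · exact absurd (pow_eq_zero_iff (by omega) |>.1 h) ha
    have h3 : Q.coeff (n + 1) = 0 := by
      rw [hQ, hc0]; simp
    rw [← hPQ, hcoeff _ (by omega), if_neg (by omega), Nat.choose_succ_self_right, zero_sub,
      neg_eq_zero, ZMod.natCast_eq_zero_iff] at h3
    have := Nat.le_of_dvd (by omega) h3
    omega

end Pool.Agent.Results.MP_1e20d6_nt.Fails
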